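import Pool.Agent.H94.IC.Targets3

/-!
# CSB: the edge of the disc is contained in the general crack
-/

set_option autoImplicit false

open MeasureTheory Set Filter Topology Metric
open scoped ENNReal NNReal ContDiff RealInnerProductSpace

namespace Pool.Agent.H62.IC

open Pool.Agent.H94.IC

lemma face_near (Φ : OpenPartialHomeomorph E E) (y : E) (hy : y ∈ Φ.source) (h2 : y 2 = 0)
    (h1 : y 0 ^ 2 + y 1 ^ 2 = 1) (N : Set E) (hN : N ∈ 𝓝 (Φ y)) :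
    ∃ y' : E, y' ∈ flatDisc ∧ y' 0 ^ 2 + y' 1 ^ 2 < 1 ∧ Φ y' ∈ N := by
  have hc : Tendsto (fun t : ℝ => t • y) (𝓝[<] 1) (𝓝 y) := by
    have : Tendsto (fun t : ℝ => t • y) (𝓝 1) (𝓝 ((1 : ℝ) • y)) :=
      (continuous_id.smul continuous_const).tendsto 1
    rw [one_smul] at this
    exact this.mono_left nhdsWithin_le_nhds
  have hc2 : Tendsto (fun t : ℝ => Φ (t • y)) (𝓝[<] 1) (𝓝 (Φ y)) :=
    (Φ.continuousAt hy).tendsto.comp hc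
  have e1 : ∀ᶠ t : ℝ in 𝓝[<] 1, Φ (t • y) ∈ N := hc2 hN
  have e2 : ∀ᶠ t : ℝ in 𝓝[<] 1, t ∈ Ioo (0 : ℝ) 1 := Ioo_mem_nhdsLT zero_lt_one
  obtain ⟨t, ht1, ht2⟩ := (e1.and e2).exists
  have e3 : (t • y) 0 ^ 2 + (t • y) 1 ^ 2 = t ^ 2 := by
    have : (t • y) 0 ^ 2 + (t • y) 1 ^ 2 = t ^ 2 * (y 0 ^ 2 + y 1 ^ 2) := by
      simp only [PiLp.smul_apply, smul_eq_mul]
      ring
    rw [this, h1, mul_one]
  have e4 : t ^ 2 < 1 := by
    have h3 := ht2.1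
    have h4 := ht2.2
    nlinarith
  refine ⟨t • y, ⟨?_, ?_⟩, ?_, ht1⟩
  · simp only [PiLp.smul_apply, smul_eq_mul, h2, mul_zero]
  · rw [e3]; exact e4.le
  · rw [e3]; exact e4

/-- at a flip both signs occur arbitrarily near the point, off `Y` -/
lemma flip_both (Y : Set E) (s : E → ℤˣ) (p : E) (W : Set E) (hW : W ∈ 𝓝 p) (h : Flip Y s p) :
    ∃ c : ℤˣ, (∃ x ∈ W, x ∉ Y ∧ s x = c) ∧ (∃ x ∈ W, x ∉ Y ∧ s x = - c) := by
  obtain ⟨T, r, hh, g, hG, c, hc⟩ := h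
  have hTt : ∀ t : ℝ, T (pt T p (0, 0) t - p) = !₂[0, 0, t] := by
    intro t
    unfold pt
    rw [add_sub_cancel_left, LinearIsometryEquiv.apply_symm_apply]
  have hcont : Continuous (fun t : ℝ => pt T p (0, 0) t) := by
    unfold pt
    apply continuous_const.add
    apply T.symm.continuous.comp
    apply (PiLp.continuous_toLp 2 _).comp
    apply continuous_pi
    intro i
    fin_cases i
    · exact continuous_const
    · exact continuous_const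
    · exact continuous_id
  have h0 : pt T p (0, 0) 0 = p := by
    have h1 : T (pt T p (0, 0) 0 - p) = 0 := by
      rw [hTt 0]
      ext i
      fin_cases i <;> rfl
    have h2 : pt T p (0, 0) 0 - p = 0 := by
      rwa [LinearIsometryEquiv.map_eq_zero_iff] at h1
    exact sub_eq_zero.1 h2
  have hev : ∀ᶠ t : ℝ in 𝓝 0, pt T p (0, 0) t ∈ W := by
    apply hcont.tendsto 0
    rw [h0]
    exact hW
  obtain ⟨η, hη, hη2⟩ := Metric.eventually_nhds_iff.1 hev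
  set t : ℝ := min (η / 2) (hh / 2) with ht
  have htpos : 0 < t := lt_min (by linarith) (by linarith [hG.hpos])
  have htη : t < η := lt_of_le_of_lt (min_le_left _ _) (by linarith)
  have hth : t < hh := lt_of_le_of_lt (min_le_right _ _) (by linarith [hG.hpos])
  have hbox : ∀ t' : ℝ, |t'| < hh → pt T p (0, 0) t' ∈ Bx T p r hh := by
    intro t' ht'
    change |(T (pt T p (0, 0) t' - p)) 0| < r ∧ |(T (pt T p (0, 0) t' - p)) 1| < r ∧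
      |(T (pt T p (0, 0) t' - p)) 2| < hh
    rw [hTt t']
    refine ⟨?_, ?_, ?_⟩
    · simpa using hG.rpos
    · simpa using hG.rpos
    · simpa using ht'
  have hval : ∀ t' : ℝ, |t'| < hh → (g ((T (pt T p (0, 0) t' - p)) 0,
      (T (pt T p (0, 0) t' - p)) 1) = 0) ∧ (T (pt T p (0, 0) t' - p)) 2 = t' := by
    intro t' _
    rw [hTt t']
    refine ⟨?_, ?_⟩
    · have : (((!₂[0, 0, t'] : E) 0, (!₂[0, 0, t'] : E) 1) : ℝ × ℝ) = (0, 0) := by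
        simp
      rw [this]
      exact hG.zero
    · simp
  have hnotY : ∀ t' : ℝ, |t'| < hh → t' ≠ 0 → pt T p (0, 0) t' ∉ Y := by
    intro t' ht' hne hY
    have := (hG.eq _ (hbox t' ht')).1 hY
    rw [(hval t' ht').1, (hval t' ht').2] at this
    exact hne this
  have habs : |t| < hh := by rwa [abs_of_pos htpos]
  have habs' : |(-t)| < hh := by rwa [abs_neg]
  refine ⟨c, ⟨pt T p (0, 0) t, ?_, hnotY t habs htpos.ne', ?_⟩,
    ⟨pt T p (0, 0) (-t), ?_, hnotY (-t) habs' (by linarith), ?_⟩⟩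
  · apply hη2
    rw [Real.dist_eq, sub_zero, abs_of_pos htpos]
    exact htη
  · apply (hc _ (hbox t habs)).1
    rw [(hval t habs).1, (hval t habs).2]
    exact htpos
  · apply hη2
    rw [Real.dist_eq, sub_zero, abs_neg, abs_of_pos htpos]
    exact htη
  · apply (hc _ (hbox (-t) habs')).2
    rw [(hval (-t) habs').1, (hval (-t) habs').2]
    linarith

theorem csb (hCNO : T_CNO) (hFCH : T_FCH) (hTAN : T_TAN) (hSIY : T_SIY) (hGPE : T_GPE)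
    (hRMG : T_RMG) (hINC : T_INC) (hLOC : T_LOC) (hNTV : T_NTV) (hNGP : T_NGP) (hWNS : T_WNS)
    (hANL : T_ANL) (hNLS : T_NLS) : T_CSB := by
  intro N Ω S S' σ ν ψ h h' τ τ' Φ δ hΩ hσ hFam hS hT hh hSol hh' hSol' heq hSS' y hy2 hy1
  by_contra hq0S
  obtain ⟨hS'0, hS'c, hS'Ω⟩ := (hNLS Ω S').2 Φ δ hT
  have hSc : IsClosed S := hS.cpt.isClosed
  have hO : IsOpen (Ω \ S) := hΩ.op.sdiff hSc
  have hO' : IsOpen (Ω \ S') := hΩ.op.sdiff hS'c.isClosed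
  have hyD : y ∈ flatDisc := ⟨hy2, hy1.le⟩
  have hDsrc : ∀ z ∈ flatDisc, z ∈ Φ.source := fun z hz => hT.src (self_subset_cthickening _ hz)
  have hDS' : ∀ z ∈ flatDisc, Φ z ∈ S' := by
    intro z hz
    rw [← hT.img]
    exact mem_image_of_mem _ hz
  have hq0Ω : Φ y ∈ Ω := hS'Ω (hDS' y hyD)
  have hq0O : Φ y ∈ Ω \ S := ⟨hq0Ω, hq0S⟩
  -- the complement of the crack is connected
  have hconn' : IsConnected (Ω \ S') := (hCNO Ω S' Φ δ hΩ.op hΩ.conn hT).1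
  have hsub1 : Ω \ S' ⊆ Ω \ S := fun x hx => ⟨hx.1, fun h1 => hx.2 (hSS' h1)⟩
  have hdense : Ω \ S ⊆ closure (Ω \ S') := by
    intro x hx
    rw [_root_.mem_closure_iff]
    intro U hU hxU
    by_contra hne
    rw [not_nonempty_iff_eq_empty] at hne
    have h1 : U ∩ Ω ⊆ S' := by
      intro z hz
      by_contra hz'
      have : z ∈ U ∩ (Ω \ S') := ⟨hz.1, hz.2, hz'⟩
      rw [hne] at this
      exact this
    have h2 : volume (U ∩ Ω) = 0 := measure_mono_null h1 hS'0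
    have h3 : U ∩ Ω = ∅ := ((hU.inter hΩ.op).measure_eq_zero_iff volume).1 h2
    have h4 : x ∈ U ∩ Ω := ⟨hxU, hx.1⟩
    rw [h3] at h4
    exact h4
  have hpre : IsPreconnected (Ω \ S) := hconn'.isPreconnected.subset_closure hsub1 hdense
  have hNT : NonTriv (Ω \ S) h := hNTV N Ω S σ ν ψ h τ hΩ hσ hFam.bar hS.cpt hS.sub hh hSol
  obtain ⟨_, hrel, hANall⟩ := hINC N (Ω \ S) h hO hh
  set Y := Inv (Ω \ S) h with hY
  have hAN : ∀ p ∈ Ω \ S, AN Y p := (hANall hpre hNT).1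
  -- a good sign function near the point
  obtain ⟨hR1, -, -⟩ := hRMG Y (Ω \ S) hO hAN
  obtain ⟨W', s, hW'o, hqW', hW'sub, hGood⟩ := hR1 (Φ y) hq0O (Ω \ S) (hO.mem_nhds hq0O)
  obtain ⟨ε, hε, hball⟩ := Metric.isOpen_iff.1 (hW'o.inter hO) (Φ y) ⟨hqW', hq0O⟩
  obtain ⟨W, hWo, hqW, hWball, hWΩ, hWc⟩ := (hCNO Ω S' Φ δ hΩ.op hΩ.conn hT).2 y hyD ε hε
  obtain ⟨hWconn, hWS'conn⟩ := hWc hy1
  have hWW' : W ⊆ W' := fun x hx => (hball (hWball hx)).1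
  have hWO : W ⊆ Ω \ S := fun x hx => (hball (hWball hx)).2
  -- face charts
  have hchart : ∀ y0 ∈ flatDisc, y0 0 ^ 2 + y0 1 ^ 2 < 1 → Φ y0 ∈ W →
      ∃ Ψ : OpenPartialHomeomorph E E, Φ y0 ∈ Ψ.source ∧ (Ψ (Φ y0)) 2 = 0 ∧
        Ψ.source ⊆ W ∧ ∀ x ∈ Ψ.source, (Ψ x) 2 = 0 → x ∈ Y := by
    intro y0 hy0 hy01 hy0W
    obtain ⟨Ψ, hs1, hs2, hs3, hs4, hs5, hs6, hs7⟩ :=
      hFCH Ω S' Φ δ y0 hT hy0 hy01 W (hWo.mem_nhds hy0W)
    refine ⟨Ψ, hs1, by rw [hs2]; rfl, hs3, ?_⟩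
    have htan : ∀ i, ∀ q ∈ Ψ.source, (Ψ q) 2 = 0 →
        ⟪gr (h i) q, gr (fun x => (Ψ x) 2) q⟫ = 0 := by
      intro i q hq hq0
      have hWN : WN Ω S' (h' i) :=
        hWNS Ω S' σ ν (ψ i) (h' i) (τ' i) hΩ.op hΩ.bdd hσ hS'c hS'Ω (hh' i) (hSol' i)
      exact hTAN Ω S' (Ω \ S) (h' i) (h i) Ψ hΩ.op hS'c.isClosed hO hWN (hh i)
        (hs3.trans hWO) hs4 hs5 hs6 hs7
        (fun x hx hxS' => (heq i x (hs4 hx) (hWO (hs3 hx)).2 hxS').symm) q hq ((hs7 q hq).2 hq0)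
    exact hSIY N (Ω \ S) h Ψ hO hh (hs3.trans hWO) hs5 hs6 htan
  -- the disc is invisible in W
  have hS'Y : ∀ x ∈ W, x ∈ S' → x ∈ Y := by
    intro x hxW hxS'
    rw [← hT.img] at hxS'
    obtain ⟨y1, hy1D, rfl⟩ := hxS'
    rcases lt_or_eq_of_le hy1D.2 with hlt | heq1
    · obtain ⟨Ψ, h1, h2, _, h4⟩ := hchart y1 hy1D hlt hxW
      exact h4 _ h1 h2
    · by_contra hxY
      have h1 := hrel (Φ y1) (hWO hxW) hxY
      have h2 : W ∩ {z | z ∉ Y} ∈ 𝓝 (Φ y1) := inter_mem (hWo.mem_nhds hxW) h1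
      obtain ⟨y', hy'D, hy'1, hy'W, hy'Y⟩ := face_near Φ y1 (hDsrc y1 hy1D) hy1D.1 heq1 _ h2
      obtain ⟨Ψ, h3, h4, _, h6⟩ := hchart y' hy'D hy'1 hy'W
      exact hy'Y (h6 _ h3 h4)
  -- a graph point in W
  obtain ⟨yf, hyfD, hyf1, hyfW⟩ := face_near Φ y (hDsrc y hyD) hy2 hy1 W (hWo.mem_nhds hqW)
  obtain ⟨Ψ, hΨ1, hΨ2, hΨ3, hΨ4⟩ := hchart yf hyfD hyf1 hyfW
  obtain ⟨q1, hq1W, hq1⟩ := hGPE Y Ψ (Φ yf) hΨ1 hΨ2 hΨ4 (fun x hx => hAN x (hWO (hΨ3 hx))) W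
    (hWo.mem_nhds hyfW)
  have hflip : Flip Y s q1 := hGood.flip q1 (hWW' hq1W) hq1
  -- off the disc
  set V := W \ S' with hV
  have hVo : IsOpen V := hWo.sdiff hS'c.isClosed
  have hVO : V ⊆ Ω \ S := fun x hx => hWO hx.1
  have hVO' : V ⊆ Ω \ S' := fun x hx => ⟨(hWO hx.1).1, hx.2⟩
  have hLC : LC Y V s := fun x hx => hGood.lc x ⟨hWW' hx.1.1, hx.2⟩
  have hexists : ∃ q2 ∈ V, GrPt Y q2 := by
    by_contra hno
    push Not at hno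
    obtain ⟨-, -, hR3⟩ := hRMG Y V hVo (fun p hp => hAN p (hVO hp))
    obtain ⟨c, hc⟩ := (hR3 s hLC (fun q hq hgr => absurd hgr (hno q hq))).2 hWS'conn.isPreconnected
    obtain ⟨c', ⟨x1, hx1W, hx1Y, hx1⟩, ⟨x2, hx2W, hx2Y, hx2⟩⟩ :=
      flip_both Y s q1 W (hWo.mem_nhds hq1W) hflip
    have h1 := hc x1 ⟨⟨hx1W, fun h => hx1Y (hS'Y x1 hx1W h)⟩, hx1Y⟩
    have h2 := hc x2 ⟨⟨hx2W, fun h => hx2Y (hS'Y x2 hx2W h)⟩, hx2Y⟩
    rw [hx1] at h1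
    rw [hx2, ← h1] at h2
    have h3 : ((-c' : ℤˣ) : ℤ) = (c' : ℤ) := by rw [h2]
    rw [Units.val_neg] at h3
    have h4 : (c' : ℤ) ≠ 0 := c'.ne_zero
    omega
  obtain ⟨q2, hq2V, hq2⟩ := hexists
  have hq2n : (Ω \ S) ∩ (Ω \ S') ∈ 𝓝 q2 := (hO.inter hO').mem_nhds ⟨hVO hq2V, hVO' hq2V⟩
  have hYY' : Inv (Ω \ S') h' ∩ ((Ω \ S) ∩ (Ω \ S')) = Y ∩ ((Ω \ S) ∩ (Ω \ S')) := by
    ext x
    constructor
    · rintro ⟨h1, h2⟩
      refine ⟨?_, h2⟩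
      exact (hLOC N (Ω \ S) (Ω \ S') h h' x hO hO' h2.1 h2.2
        (fun i z hz => heq i z hz.1.1 hz.1.2 hz.2.2)).2 h1
    · rintro ⟨h1, h2⟩
      refine ⟨?_, h2⟩
      exact (hLOC N (Ω \ S) (Ω \ S') h h' x hO hO' h2.1 h2.2
        (fun i z hz => heq i z hz.1.1 hz.1.2 hz.2.2)).1 h1
  have hgr := (hANL Y (Inv (Ω \ S') h') _ q2 hq2n).2.2 hYY' hq2
  exact hNGP N Ω S' σ ν ψ h' τ' Φ δ hΩ hσ hFam hT hh' hSol' q2 hgr

end Pool.Agent.H62.IC
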