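import Pool.Agent.H94.IC.Targets3

/-!
# FM1: flux free sets touching the boundary
-/

set_option autoImplicit false

open MeasureTheory Set Filter Topology Metric
open scoped ENNReal NNReal ContDiff RealInnerProductSpace Manifold

namespace Pool.Agent.H62.IC

open Pool.Agent.H94.IC

/-- smooth cutoffs with values in `[0, 1]` -/
theorem exists_cutoff {K O : Set E} (hK : IsCompact K) (hO : IsOpen O) (hKO : K ⊆ O) :
    ∃ χ : E → ℝ, ContDiff ℝ ∞ χ ∧ (∀ x, 0 ≤ χ x ∧ χ x ≤ 1) ∧ (∃ U : Set E, IsOpen U ∧ K ⊆ U ∧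
      ∀ x ∈ U, χ x = 1) ∧ HasCompactSupport χ ∧ tsupport χ ⊆ O := by
  obtain ⟨C, hC, hKC, hCO⟩ := exists_compact_between hK hO hKO
  obtain ⟨f, h1, h0, h01⟩ := exists_contMDiffMap_one_nhds_of_subset_interior
    (n := (⊤ : ℕ∞)) 𝓘(ℝ, E) hK.isClosed hKC
  have hts : tsupport f ⊆ C := by
    apply closure_minimal _ hC.isClosed
    intro x hx
    by_contra hxC
    exact hx (h0 x hxC)
  obtain ⟨U, hU, hKU, hU1⟩ := mem_nhdsSet_iff_exists.1 h1
  refine ⟨f, f.contMDiff.contDiff, fun x => ⟨(h01 x).1, (h01 x).2⟩, ⟨U, hU, hKU, hU1⟩,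
    HasCompactSupport.of_support_subset_isCompact hC (subset_tsupport _ |>.trans hts),
    hts.trans hCO⟩

theorem gr_congr {f g : E → ℝ} {x : E} (h : f =ᶠ[𝓝 x] g) : gr f x = gr g x := by
  unfold gr gradient
  rw [h.fderiv_eq]

theorem gr_zero {f : E → ℝ} {x : E} (h : f =ᶠ[𝓝 x] fun _ => 0) : gr f x = 0 := by
  rw [gr_congr h]
  unfold gr gradient
  simp

theorem gr_one_sub {f : E → ℝ} (x : E) : gr (fun y => 1 - f y) x = - gr f x := by
  unfold gr gradient
  rw [fderiv_const_sub, map_neg]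

theorem gr_cont {f : E → ℝ} (hf : ContDiff ℝ ∞ f) : Continuous (gr f) := by
  unfold gr gradient
  have h1 : Continuous (fderiv ℝ f) := hf.continuous_fderiv (by simp)
  exact (InnerProductSpace.toDual ℝ E).symm.continuous.comp h1

theorem gr_hcs {f : E → ℝ} (hf : HasCompactSupport f) : HasCompactSupport (gr f) := by
  have h1 : HasCompactSupport (fderiv ℝ f) := hf.fderiv ℝ
  exact h1.comp_left (g := (InnerProductSpace.toDual ℝ E).symm) (map_zero _)

theorem fm1 (hFM0 : T_FM0) (hHSM : T_HSM) (hWNS : T_WNS) (hNLS : T_NLS) : T_FM1 := by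
  classical
  intro Ω S Φ δ σ ν ψ h τ D K hO hB hσ hT hψ hh hSol hD hDB hK hKΩ hSK hclo hFF
  obtain ⟨_, hSc, hSΩ⟩ := (hNLS Ω S).2 Φ δ hT
  have hWN := hWNS Ω S σ ν ψ h τ hO hB hσ hSc hSΩ hh hSol
  obtain ⟨χ, hχs, hχ01, ⟨U, hU, hKU, hU1⟩, hχc, hχΩ⟩ := exists_cutoff hK hO hKΩ
  -- the test function
  set φ : E → ℝ := fun x => if x ∈ D then 1 - χ x else 0 with hφ
  have hone : ContDiff ℝ ∞ (fun x => 1 - χ x) := contDiff_const.sub hχs
  have hK0 : ∀ x ∈ K, φ =ᶠ[𝓝 x] fun _ => 0 := by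
    intro x hx
    filter_upwards [hU.mem_nhds (hKU hx)] with z hz
    simp only [hφ, hU1 z hz, sub_self, ite_self]
  have hin : ∀ x ∈ D, φ =ᶠ[𝓝 x] fun z => 1 - χ z := by
    intro x hx
    filter_upwards [hD.mem_nhds hx] with z hz
    simp only [hφ, if_pos hz]
  have hout : ∀ x, x ∉ K → x ∉ D → φ =ᶠ[𝓝 x] fun _ => 0 := by
    intro x hx hxD
    have h1 : x ∉ closure D := fun h2 => hxD (hclo x h2 hx)
    filter_upwards [isClosed_closure.isOpen_compl.mem_nhds h1] with z hz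
    have h2 : z ∉ D := fun h3 => hz (subset_closure h3)
    simp only [hφ, if_neg h2]
  have hφs : ContDiff ℝ ∞ φ := by
    rw [contDiff_iff_contDiffAt]
    intro x
    by_cases hxK : x ∈ K
    · exact contDiffAt_const.congr_of_eventuallyEq (hK0 x hxK)
    · by_cases hxD : x ∈ D
      · exact hone.contDiffAt.congr_of_eventuallyEq (hin x hxD)
      · exact contDiffAt_const.congr_of_eventuallyEq (hout x hxK hxD)
  have hgr : ∀ x, gr φ x = if x ∈ D then - gr χ x else 0 := by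
    intro x
    split_ifs with hxD
    · rw [gr_congr (hin x hxD), gr_one_sub]
    · by_cases hxK : x ∈ K
      · exact gr_zero (hK0 x hxK)
      · exact gr_zero (hout x hxK hxD)
  have hHS : HS1 Ω S σ ν φ (gr φ) φ := (hHSM Ω S σ ν hO hB hσ hSc hSΩ).2.2.2.1 φ hφs
  have hw := hSol.weak φ (gr φ) φ hHS
  -- the left side vanishes
  have hfin := hσ.fin
  have hmem : MemLp (gr χ) 2 (volume.restrict Ω) :=
    ((gr_cont hχs).memLp_of_hasCompactSupport (gr_hcs hχc)).restrict Ω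
  have h0 := hFM0 Ω S Φ δ h D hO hB hT hWN hD hFF χ (tsupport χ) hχs.contDiffOn
    ⟨1, fun x => by rw [abs_of_nonneg (hχ01 x).1]; exact (hχ01 x).2⟩ hmem hχc hχΩ
    (fun x hx => image_eq_zero_of_notMem_tsupport hx.2)
  have hL : ∫ x in Ω, ⟪gr h x, gr φ x⟫ = 0 := by
    have h1 : ∫ x in Ω, ⟪gr h x, gr φ x⟫ = ∫ x in Ω, D.indicator (fun x => - ⟪gr h x, gr χ x⟫) x := by
      refine integral_congr_ae (Eventually.of_forall fun x => ?_)
      dsimp only
      rw [hgr x]
      by_cases hxD : x ∈ D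
      · rw [if_pos hxD, indicator_of_mem hxD, inner_neg_right]
      · rw [if_neg hxD, indicator_of_notMem hxD, inner_zero_right]
    rw [h1, setIntegral_indicator hD.measurableSet, integral_neg, inter_comm, h0, neg_zero]
  rw [hL] at hw
  -- the right side
  have hae : ∀ᵐ x ∂σ, x ∈ frontier Ω := by
    rw [ae_iff]
    exact hσ.supp
  have hR : ∫ x, ψ x * φ x ∂σ = ∫ x in D, ψ x ∂σ := by
    rw [← integral_indicator hD.measurableSet]
    refine integral_congr_ae ?_
    filter_upwards [hae] with x hx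
    have hxΩ : x ∉ Ω := by
      rw [hO.frontier_eq] at hx
      exact hx.2
    have hχ0 : χ x = 0 := by
      by_contra h1
      exact hxΩ (hχΩ (subset_tsupport _ h1))
    by_cases hxD : x ∈ D
    · rw [indicator_of_mem hxD]
      simp only [hφ, if_pos hxD, hχ0, sub_zero, mul_one]
    · rw [indicator_of_notMem hxD]
      simp only [hφ, if_neg hxD, mul_zero]
  rw [← hR, ← hw]

end Pool.Agent.H62.IC
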